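import Mathlib

namespace Pool.Agent.Results.MP_936e79_co.Bridge

open SimpleGraph

/-- `f` lists the vertices of a simple cycle of length `n + 3` in cyclic order. -/
def Cyc {V : Type} (G : SimpleGraph V) (n : ℕ) (f : ZMod (n + 3) → V) : Prop :=
  Function.Injective f ∧ ∀ i, G.Adj (f i) (f (i + 1))

/-- distance along the cycle -/
def cd {m : ℕ} (i j : ZMod m) : ℕ := min (j - i).val (i - j).val

/-- locally geodesic -/
def LG {V : Type} (G : SimpleGraph V) {m : ℕ} (f : ZMod m → V) (μ : ℕ) : Prop :=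
  ∀ i j, G.dist (f i) (f j) = cd i j → cd i j ≤ μ

/-- bridge -/
def Br {V : Type} (G : SimpleGraph V) {m : ℕ} (f : ZMod m → V) (k : ℕ) (i j : ZMod m) : Prop :=
  G.dist (f i) (f j) ≤ k ∧ k < cd i j

/-- the property defining bgc -/
def Small {V : Type} (G : SimpleGraph V) (μ : ℕ) : Prop :=
  ∀ n f, Cyc G n f → ¬ LG G f μ → ∀ i : ZMod (n + 3),
    G.dist (f i) (f (i + (μ + 1 : ℕ))) = μ + 1 → cd i (i + (μ + 1 : ℕ)) = μ + 1 →
    ∃ s : ℕ, s ≤ μ + 1 ∧ ∃ z, (∀ t : ℕ, t ≤ μ + 1 → z ≠ i + t) ∧ Br G f ((μ + 1) / 2) (i + s) z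

/-- the property defining BGC -/
def Big {V : Type} (G : SimpleGraph V) (μ : ℕ) : Prop :=
  ∀ n f, Cyc G n f → ¬ LG G f μ → ∃ v z, Br G f ((μ + 1) / 2) v z

def H (N : ℕ) : SimpleGraph (Fin (N + 1)) :=
  fromRel fun v w => w.val = v.val + 1 ∨ w.val = v.val / 2

theorem adj_iff {N : ℕ} {v w : Fin (N + 1)} : (H N).Adj v w ↔ v.val ≠ w.val ∧
    (w.val = v.val + 1 ∨ w.val = v.val / 2 ∨ v.val = w.val + 1 ∨ v.val = w.val / 2) := by
  simp only [H, fromRel_adj, ne_eq, Fin.ext_iff]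
  tauto

theorem conn (N : ℕ) : (H N).Connected := by
  have key : ∀ k (hk : k < N + 1), (H N).Reachable 0 ⟨k, hk⟩ := by
    intro k
    induction k with
    | zero => intro hk; rfl
    | succ k ih =>
      intro hk
      refine (ih (by omega)).trans (Adj.reachable ?_)
      rw [adj_iff]; simp
  exact ⟨fun u v => (key u u.2).symm.trans (key v v.2)⟩

theorem d1 {N : ℕ} {v w : Fin (N + 1)}
    (h : v.val = w.val ∨ w.val = v.val + 1 ∨ w.val = v.val / 2 ∨ v.val = w.val + 1 ∨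
      v.val = w.val / 2) : (H N).dist v w ≤ 1 := by
  by_cases e : v.val = w.val
  · rw [Fin.ext e]; simp
  · have : (H N).Adj v w := adj_iff.2 ⟨e, by tauto⟩
    rw [dist_eq_one_iff_adj.2 this]

theorem short {N : ℕ} {x0 x1 x2 x3 : Fin (N + 1)} (h0 : x0.val = x1.val / 2)
    (h2 : x1.val = x2.val + 1) (h23 : (H N).Adj x2 x3) (h3 : x3.val < x1.val) :
    (H N).dist x0 x3 ≤ 2 := by
  rw [adj_iff] at h23
  by_cases e : x3.val = x2.val / 2
  · have := d1 (v := x0) (w := x3) (by omega)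
    omega
  · let w : Fin (N + 1) := ⟨x3.val / 2, by omega⟩
    have a := d1 (v := x0) (w := w) (by simp only [w]; omega)
    have b := d1 (v := w) (w := x3) (Or.inr (Or.inr (Or.inr (Or.inr rfl))))
    have := (conn N).dist_triangle (u := x0) (v := w) (w := x3)
    omega

theorem cd_comm {m : ℕ} (i j : ZMod m) : cd i j = cd j i := min_comm _ _

theorem cd_add {n : ℕ} (i : ZMod (n + 3)) (t : ℕ) (h : 2 * t ≤ n + 3) : cd i (i + t) = t := by
  have e1 : i + t - i = t := by ring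
  have e2 : i - (i + t) = -t := by ring
  have e3 : (t : ZMod (n + 3)).val = t := ZMod.val_natCast_of_lt (by omega)
  unfold cd
  rw [e1, e2, ZMod.neg_val, e3]
  split_ifs with h0
  · rw [h0, ZMod.val_zero] at e3; omega
  · omega

theorem cd_le {n : ℕ} (i j : ZMod (n + 3)) : 2 * cd i j ≤ n + 3 := by
  have e2 : i - j = -(j - i) := by ring
  have := ZMod.val_lt (j - i)
  unfold cd
  rw [e2, ZMod.neg_val]
  split_ifs <;> omega

theorem big (N : ℕ) : Big (H N) 3 := by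
  rintro n f ⟨hi, ha⟩ hl
  have hn : 8 ≤ n + 3 := by
    unfold LG at hl
    push Not at hl
    obtain ⟨i, j, -, h⟩ := hl
    have := cd_le i j
    omega
  obtain ⟨i, hm⟩ := Finite.exists_max fun i => (f i).val
  have ne : ∀ (j : ZMod (n + 3)) (t : ℕ), 0 < t → t ≤ 3 → (f j).val ≠ (f (j + t)).val := by
    intro j t h1 h2 h
    have h3 := hi (Fin.ext h)
    have h4 := cd_add j t (by omega)
    rw [← h3] at h4
    simp [cd] at h4
    omega
  have a1 := ha (i - 2)
  have a2 := ha (i - 1)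
  have a3 := ha i
  have a4 := ha (i + 1)
  have n1 := ne (i - 1) 2 (by norm_num) (by norm_num)
  have n2 := ne i 2 (by norm_num) (by norm_num)
  have n3 := ne (i - 2) 2 (by norm_num) (by norm_num)
  have c1 := cd_add (i - 1) 3 (by omega)
  have c2 := cd_add (i - 2) 3 (by omega)
  have e1 : i - 2 + 1 = i - 1 := by ring
  have e2 : i - 1 + 1 = i := by ring
  have e3 : i - 1 + (2 : ℕ) = i + 1 := by push_cast; ring
  have e4 : i + (2 : ℕ) = i + 1 + 1 := by push_cast; ring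
  have e5 : i - 2 + (2 : ℕ) = i := by push_cast; ring
  have e6 : i - 1 + (3 : ℕ) = i + 1 + 1 := by push_cast; ring
  have e7 : i - 2 + (3 : ℕ) = i + 1 := by push_cast; ring
  rw [e1] at a1
  rw [e2] at a2
  rw [e3] at n1
  rw [e4] at n2
  rw [e5] at n3
  rw [e6] at c1
  rw [e7] at c2
  have m1 := hm (i - 2)
  have m2 := hm (i - 1)
  have m3 := hm (i + 1)
  have m4 := hm (i + 1 + 1)
  have b2 := adj_iff.1 a2
  have b3 := adj_iff.1 a3
  by_cases h : (f i).val = (f (i + 1)).val + 1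
  · exact ⟨i - 1, i + 1 + 1, short (x1 := f i) (by omega) h a4 (by omega), by omega⟩
  · refine ⟨i + 1, i - 2, short (x1 := f i) (by omega) (by omega) a1.symm (by omega), ?_⟩
    rw [cd_comm]; omega

theorem ball {N K R a : ℕ} {u : Fin (N + 1)} (hu : u.val = 2 ^ a) (hR : R * 2 ^ K ≤ 2 ^ a)
    {v : Fin (N + 1)} (p : (H N).Walk v u) (hp : p.length ≤ K) :
    ∃ i, a ≤ i + p.length ∧ i ≤ a + p.length ∧ v.val * R ≤ 2 ^ i * R + p.length * 2 ^ i ∧
      2 ^ i * R ≤ v.val * R + p.length * 2 ^ i := by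
  induction p with
  | nil => exact ⟨a, by simp [hu]⟩
  | @cons v w _ h p ih =>
    rw [Walk.length_cons] at hp ⊢
    obtain ⟨i, h1, h2, h3, h4⟩ := ih hu (by omega)
    rcases Nat.eq_zero_or_pos R with rfl | hR0
    · exact ⟨i, by omega, by omega, by simp, by simp⟩
    have hK : K ≤ a := by
      by_contra hh
      have : 2 ^ a < 2 ^ K := Nat.pow_lt_pow_right (by norm_num) (by omega)
      nlinarith
    obtain ⟨j, rfl⟩ : ∃ j, i = j + 1 := ⟨i - 1, by omega⟩
    have hRj : R ≤ 2 ^ j := by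
      have : 2 ^ a ≤ 2 ^ j * 2 ^ K := by
        rw [← pow_add]; exact Nat.pow_le_pow_right (by norm_num) (by omega)
      exact Nat.le_of_mul_le_mul_right (hR.trans this) (by positivity)
    rw [pow_succ] at h3 h4
    generalize p.length = t at *
    rcases (adj_iff.1 h).2 with e | e | e | e
    · refine ⟨j + 1, by omega, by omega, ?_, ?_⟩ <;> rw [pow_succ] <;> rw [e] at h3 h4 <;>
        nlinarith
    · refine ⟨j + 2, by omega, by omega, ?_, ?_⟩ <;> rw [pow_succ, pow_succ]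
      · have : v.val ≤ 2 * w.val + 1 := by omega
        nlinarith
      · have : 2 * w.val ≤ v.val := by omega
        nlinarith
    · refine ⟨j + 1, by omega, by omega, ?_, ?_⟩ <;> rw [pow_succ, e] <;> nlinarith
    · refine ⟨j, by omega, by omega, ?_, ?_⟩
      · have : 2 * v.val ≤ w.val := by omega
        nlinarith
      · have : w.val ≤ 2 * v.val + 1 := by omega
        nlinarith

theorem ball2 {N K a t : ℕ} {u v : Fin (N + 1)} (hu : u.val = 2 ^ a) (ha : 2 * K + 2 ≤ a)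
    (hd : (H N).dist u v ≤ t) (ht : t ≤ K) :
    ∃ i, a ≤ i + t ∧ i ≤ a + t ∧ 4 * v.val < 5 * 2 ^ i ∧ 3 * 2 ^ i < 4 * v.val := by
  obtain ⟨p, hp⟩ := (conn N).exists_walk_length_eq_dist v u
  rw [dist_comm] at hp
  have hR : 2 ^ (K + 2) * 2 ^ K ≤ 2 ^ a := by
    rw [← pow_add]; exact Nat.pow_le_pow_right (by norm_num) (by omega)
  obtain ⟨i, h1, h2, h3, h4⟩ := ball hu hR p (by omega)
  have h5 : 4 * p.length < 2 ^ (K + 2) := by
    have : K < 2 ^ K := Nat.lt_two_pow_self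
    rw [pow_add]; omega
  have h6 : 0 < 2 ^ i := by positivity
  generalize 2 ^ (K + 2) = R at *
  refine ⟨i, by omega, by omega, ?_, ?_⟩
  · by_contra hh
    have : 5 * 2 ^ i ≤ 4 * v.val := by omega
    nlinarith
  · by_contra hh
    have : 4 * v.val ≤ 3 * 2 ^ i := by omega
    nlinarith

theorem pw {b i : ℕ} (h : b < i) : 2 * 2 ^ b ≤ 2 ^ i := by
  rw [← pow_succ']; exact Nat.pow_le_pow_right (by norm_num) h

theorem pw1 {b i : ℕ} (h1 : 4 * 2 ^ b < 5 * 2 ^ i) (h2 : 3 * 2 ^ i < 4 * 2 ^ b) : b = i := by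
  rcases lt_trichotomy b i with h | h | h
  · have := pw h; omega
  · exact h
  · have := pw h; omega

theorem pw2 {b i : ℕ} (h1 : 4 * (3 * 2 ^ b) < 5 * 2 ^ i) (h2 : 3 * 2 ^ i < 4 * (3 * 2 ^ b)) :
    False := by
  rcases lt_trichotomy (b + 1) i with h | h | h
  · have := pw h; rw [pow_succ] at this; omega
  · rw [← h, pow_succ] at h1; omega
  · have := pw h; rw [pow_succ] at this; omega

def F (E t : ℕ) : ℕ :=
  if t ≤ E then 2 ^ (t + 1) else if t ≤ E + 2 ^ E then 2 * 2 ^ E + (t - E)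
  else 3 * 2 ^ (2 * E + 2 ^ E - t)

theorem F_cases (E t : ℕ) (ht : t ≤ 2 * E + 2 ^ E) :
    (t ≤ E ∧ F E t = 2 ^ (t + 1) ∧ F E t ≤ 2 * 2 ^ E) ∨
    (E < t ∧ t ≤ E + 2 ^ E ∧ F E t + E = 2 * 2 ^ E + t) ∨
    (∃ b, b < E ∧ t + b = 2 * E + 2 ^ E ∧ F E t = 3 * 2 ^ b ∧ F E t ≤ 2 * 2 ^ E) := by
  unfold F
  split_ifs with h1 h2
  · left
    refine ⟨h1, rfl, ?_⟩
    rw [← pow_succ']; exact Nat.pow_le_pow_right (by norm_num) (by omega)
  · right; left; omega
  · right; right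
    have := pw (b := 2 * E + 2 ^ E - t) (i := E) (by omega)
    exact ⟨_, by omega, by omega, rfl, by omega⟩

theorem F_inj (E s t : ℕ) (hs : s ≤ 2 * E + 2 ^ E) (ht : t ≤ 2 * E + 2 ^ E)
    (h : F E s = F E t) : s = t := by
  have k : ∀ x y : ℕ, 2 ^ x ≠ 3 * 2 ^ y := fun x y e => by
    have : 0 < 2 ^ y := by positivity
    exact pw2 (b := y) (i := x) (by omega) (by omega)
  rcases F_cases E s hs with ⟨a1, a2, a3⟩ | ⟨a1, a2, a3⟩ | ⟨b, a1, a2, a3, a4⟩ <;>
    rcases F_cases E t ht with ⟨c1, c2, c3⟩ | ⟨c1, c2, c3⟩ | ⟨d, c1, c2, c3, c4⟩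
  · have := Nat.pow_right_injective (le_refl 2) (a2.symm.trans (h.trans c2))
    omega
  · omega
  · exact absurd (a2.symm.trans (h.trans c3)) (k _ _)
  · omega
  · omega
  · omega
  · exact absurd (c2.symm.trans (h.symm.trans a3)) (k _ _)
  · omega
  · have : 2 ^ b = 2 ^ d := by omega
    have := Nat.pow_right_injective (le_refl 2) this
    omega

theorem F_adj (E t : ℕ) (ht : t < 2 * E + 2 ^ E) :
    F E (t + 1) = F E t + 1 ∨ F E (t + 1) = F E t / 2 ∨ F E t = F E (t + 1) / 2 := by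
  have h0 : 0 < 2 ^ E := by positivity
  rcases F_cases E t (by omega) with ⟨a1, a2, a3⟩ | ⟨a1, a2, a3⟩ | ⟨b, a1, a2, a3, a4⟩ <;>
    rcases F_cases E (t + 1) ht with ⟨c1, c2, c3⟩ | ⟨c1, c2, c3⟩ | ⟨d, c1, c2, c3, c4⟩
  · rw [pow_succ] at c2; omega
  · have : t = E := by omega
    rw [this, pow_succ] at a2
    rw [this] at c3 ⊢
    omega
  · omega
  · omega
  · omega
  · have : E = d + 1 := by omega
    have e : 2 ^ E = 2 ^ d * 2 := by rw [this, pow_succ]
    omega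
  · omega
  · omega
  · have : b = d + 1 := by omega
    rw [this, pow_succ] at a3
    omega

theorem dist_le {V : Type} {G : SimpleGraph V} (hG : G.Connected) {n : ℕ} {f : ZMod (n + 3) → V}
    (hf : Cyc G n f) (i : ZMod (n + 3)) (t : ℕ) : G.dist (f i) (f (i + t)) ≤ t := by
  induction t with
  | zero => simp
  | succ t ih =>
    have h1 := hG.dist_triangle (u := f i) (v := f (i + t)) (w := f (i + t + 1))
    rw [dist_eq_one_iff_adj.2 (hf.2 _)] at h1
    push_cast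
    rw [← add_assoc]
    omega

theorem not_small (K μ : ℕ) (h : μ + 1 ≤ K) : ¬ Small (H (3 * 2 ^ (4 * K + 4))) μ := by
  intro hS
  set E := 4 * K + 4 with hE
  have hE2 : E < 2 ^ E := Nat.lt_two_pow_self
  obtain ⟨n, hn⟩ : ∃ n, n + 3 = 2 * E + 2 ^ E + 1 := ⟨2 * E + 2 ^ E - 2, by omega⟩
  have hv : ∀ i : ZMod (n + 3), i.val ≤ 2 * E + 2 ^ E := fun i => by
    have := ZMod.val_lt i; omega
  have hF : ∀ i : ZMod (n + 3), F E i.val < 3 * 2 ^ E + 1 := fun i => by
    rcases F_cases E _ (hv i) with ⟨a1, a2, a3⟩ | ⟨a1, a2, a3⟩ | ⟨b, a1, a2, a3, a4⟩ <;> omega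
  let f : ZMod (n + 3) → Fin (3 * 2 ^ E + 1) := fun i => ⟨F E i.val, hF i⟩
  have hinj : Function.Injective f := fun i j e =>
    ZMod.val_injective _ (F_inj E _ _ (hv i) (hv j) (congrArg Fin.val e))
  have hc : Cyc (H (3 * 2 ^ E)) n f := by
    refine ⟨hinj, fun i => adj_iff.2 ⟨fun e => ?_, ?_⟩⟩
    · have h3 := hinj (Fin.ext e)
      have h4 := cd_add i 1 (by omega)
      push_cast at h4
      rw [← h3] at h4
      simp [cd] at h4
    · have e1 : (1 : ZMod (n + 3)).val = 1 := by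
        have : Fact (1 < n + 3) := ⟨by omega⟩
        exact ZMod.val_one _
      simp only [f, ZMod.val_add, e1]
      rcases (hv i).lt_or_eq with h1 | h1
      · rw [Nat.mod_eq_of_lt (by omega)]
        have := F_adj E _ h1
        omega
      · rw [h1, ← hn, Nat.mod_self]
        have a : F E 0 = 2 := by simp [F]
        have b : F E (2 * E + 2 ^ E) = 3 := by
          unfold F
          rw [if_neg (by omega), if_neg (by omega)]; simp
        omega
  have hval : ∀ s : ℕ, s ≤ K → (f ((2 * K + 2 : ℕ) + s)).val = 2 ^ (2 * K + 2 + s + 1) := by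
    intro s hs
    simp only [f]
    rw [← Nat.cast_add, ZMod.val_natCast_of_lt (by omega)]
    unfold F
    rw [if_pos (by omega)]
  have hcd := cd_add ((2 * K + 2 : ℕ) : ZMod (n + 3)) (μ + 1) (by omega)
  have hd : (H (3 * 2 ^ E)).dist (f (2 * K + 2 : ℕ)) (f ((2 * K + 2 : ℕ) + (μ + 1 : ℕ))) =
      μ + 1 := by
    refine le_antisymm (dist_le (conn _) hc _ _) ?_
    by_contra hh
    have h0 := hval 0 (by omega)
    simp only [Nat.cast_zero, add_zero] at h0
    obtain ⟨i, b1, b2, b3, b4⟩ := ball2 (K := K) (t := μ) h0 (by omega)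
      (Nat.le_of_lt_succ (not_le.1 hh)) (by omega)
    rw [hval _ h] at b3 b4
    have := pw1 b3 b4
    omega
  obtain ⟨s, hs, z, -, hz1, hz2⟩ := hS n f hc (fun hl => by
    have := hl _ _ (hd.trans hcd.symm); omega) _ hd hcd
  obtain ⟨i, b1, b2, b3, b4⟩ := ball2 (K := K) (hval s (by omega)) (by omega) hz1 (by omega)
  simp only [f] at b3 b4
  rcases F_cases E _ (hv z) with ⟨a1, a2, a3⟩ | ⟨a1, a2, a3⟩ | ⟨b, a1, a2, a3, a4⟩
  · rw [a2] at b3 b4
    have e := pw1 b3 b4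
    rw [← Nat.cast_add] at hz2
    rcases le_total z.val (2 * K + 2 + s) with h1 | h1
    · obtain ⟨d, hd'⟩ := Nat.exists_eq_add_of_le h1
      have := cd_add z d (by omega)
      rw [hd', Nat.cast_add, ZMod.natCast_zmod_val, cd_comm] at hz2
      omega
    · obtain ⟨d, hd'⟩ := Nat.exists_eq_add_of_le h1
      have := cd_add ((2 * K + 2 + s : ℕ) : ZMod (n + 3)) d (by omega)
      rw [← Nat.cast_add, ← hd', ZMod.natCast_zmod_val] at this
      omega
  · have := pw (b := i) (i := E) (by omega)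
    omega
  · rw [a3] at b3 b4
    exact pw2 b3 b4

theorem result (c : ℝ) : ∃ (N : ℕ) (G : SimpleGraph (Fin N)) (a b : ℕ), G.Connected ∧
    IsLeast {μ | 1 ≤ μ ∧ Small G μ} a ∧ IsLeast {μ | 1 ≤ μ ∧ Big G μ} b ∧ c * b < a := by
  obtain ⟨C, hC⟩ := exists_nat_gt c
  set N := 3 * 2 ^ (4 * (3 * C + 1) + 4) with hN
  have h1 : N + 1 ∈ {μ | 1 ≤ μ ∧ Small (H N) μ} := by
    refine ⟨by omega, fun n f hf _ i _ h => ?_⟩
    have a := Fintype.card_le_of_injective f hf.1
    have b := cd_le i (i + (N + 1 + 1 : ℕ))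
    rw [ZMod.card, Fintype.card_fin] at a
    omega
  have h2 : 3 ∈ {μ | 1 ≤ μ ∧ Big (H N) μ} := ⟨by norm_num, big N⟩
  have l1 := isLeast_csInf ⟨_, h1⟩
  have l2 := isLeast_csInf ⟨_, h2⟩
  refine ⟨N + 1, H N, _, _, conn N, l1, l2, ?_⟩
  have b3 := l2.2 h2
  have b1 := l2.1.1
  have a1 : 3 * C < sInf {μ | 1 ≤ μ ∧ Small (H N) μ} := by
    by_contra hh
    exact not_small (3 * C + 1) _ (by omega) l1.1.2
  generalize sInf {μ | 1 ≤ μ ∧ Small (H N) μ} = a at *
  generalize sInf {μ | 1 ≤ μ ∧ Big (H N) μ} = b at *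
  have x1 : (3 * C : ℝ) < a := by exact_mod_cast a1
  have x2 : (b : ℝ) ≤ 3 := by exact_mod_cast b3
  have x3 : (0 : ℝ) ≤ b := by positivity
  have x4 : (0 : ℝ) ≤ C := by positivity
  nlinarith

end Pool.Agent.Results.MP_936e79_co.Bridge
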